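import Pool.Agent.K3h18.IN.Gal

/-!
# Inflation, central subgroups, characters of central extensions
-/

set_option autoImplicit false
set_option linter.style.haveILetI false

open scoped BigOperators Classical

noncomputable section

namespace Pool.Agent.K3h18.IN

open Pool.Agent.Helper884 Pool.Agent.K3h3.KB Pool.Agent.K3h3.MK Pool.Agent.K3h83.IN
open Pool.Agent.H254R3.IN (IsIrr mem_Irr)
open Pool.Agent.Q90.WR (irr_of_norm B_nat)
open IC (Irr)
open Representation

/-- inflation of irreducible characters -/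
theorem irr_infl {E G : Type} [Group E] [Group G] (π : E →* G) (hπ : Function.Surjective π)
    {χ : G → ℂ} (h : IsIrr χ) : IsIrr (fun x => χ (π x)) := by
  obtain ⟨V, i1, i2, i3, ρ, hr, rfl⟩ := h
  refine ⟨V, i1, i2, i3, ρ.comp π, ?_, rfl⟩
  have e : Subrepresentation (ρ.comp π) ≃o Subrepresentation ρ :=
    { toFun := fun W => ⟨W.toSubmodule, fun g v hv => by
        obtain ⟨x, rfl⟩ := hπ g
        exact W.apply_mem_toSubmodule x hv⟩
      invFun := fun W => ⟨W.toSubmodule, fun g v hv => W.apply_mem_toSubmodule (π g) hv⟩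
      left_inv := fun W => rfl
      right_inv := fun W => rfl
      map_rel_iff' := Iff.rfl }
  exact (OrderIso.isSimpleOrder_iff e).2 hr

theorem B_infl {E G : Type} [Group E] [Group G] [Fintype E] [Fintype G] (π : E →* G)
    (hπ : Function.Surjective π) (f g : G → ℂ) :
    IC.B (fun x => f (π x)) (fun x => g (π x)) = IC.B f g := by
  unfold IC.B
  rw [← sum_quot π hπ fun q => f q * g q⁻¹]
  simp only [map_inv]

/-- an irreducible character which is inflated comes from an irreducible character -/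
theorem irr_of_infl {E G : Type} [Group E] [Group G] [Fintype E] [Fintype G] (π : E →* G)
    (hπ : Function.Surjective π) {χ : G → ℂ} (h : IsIrr (fun x => χ (π x))) : IsIrr χ := by
  have hcl : IC.IsClass χ := by
    intro g y
    obtain ⟨a, rfl⟩ := hπ g
    obtain ⟨b, rfl⟩ := hπ y
    have := IC.IsIrrChar.isClass h a b
    simpa only [map_mul, map_inv] using this
  have h1 : IC.B χ χ = 1 := by
    rw [← B_infl π hπ, IC.B_irr h h, if_pos rfl]
  have h2 : IC.B (∑ β ∈ Irr G, IC.B χ β • β) χ ≠ 0 := by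
    rw [← IC.expand χ hcl, h1]
    exact one_ne_zero
  rw [IC.B_sum_left] at h2
  obtain ⟨β, hβ, hne⟩ := Finset.exists_ne_zero_of_sum_ne_zero h2
  have hβ' := mem_Irr.mp hβ
  rw [IC.B_smul_left, ← B_infl π hπ χ β, IC.B_irr h (irr_infl π hπ hβ')] at hne
  have h3 : (fun x => χ (π x)) = fun x => β (π x) := by
    by_contra hcon
    rw [if_neg hcon, zero_mul] at hne
    exact hne rfl
  have h4 : χ = β := by
    funext g
    obtain ⟨x, rfl⟩ := hπ g
    exact congrFun h3 x
  rw [h4]
  exact hβ'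

/-- the function on the quotient -/
def dsc {E G : Type} [Group E] [Group G] {π : E →* G} (hπ : Function.Surjective π) (f : E → ℂ) :
    G → ℂ := fun g => f (Function.surjInv hπ g)

theorem dsc_apply {E G : Type} [Group E] [Group G] {π : E →* G} (hπ : Function.Surjective π)
    {f : E → ℂ} (hf : ∀ a ∈ π.ker, ∀ x, f (a * x) = f x) (x : E) : dsc hπ f (π x) = f x := by
  unfold dsc
  have h1 : Function.surjInv hπ (π x) * x⁻¹ ∈ π.ker := by
    rw [MonoidHom.mem_ker, map_mul, Function.surjInv_eq hπ, map_inv, mul_inv_cancel]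
  have h2 := hf _ h1 x
  rwa [inv_mul_cancel_right] at h2

theorem dsc_irr {E G : Type} [Group E] [Group G] [Fintype E] [Fintype G] {π : E →* G}
    (hπ : Function.Surjective π) {f : E → ℂ} (hf : ∀ a ∈ π.ker, ∀ x, f (a * x) = f x)
    (h : IsIrr f) : IsIrr (dsc hπ f) := by
  apply irr_of_infl π hπ
  have : (fun x => dsc hπ f (π x)) = f := funext fun x => dsc_apply hπ hf x
  rw [this]
  exact h

/-- central elements act by scalars -/
theorem central {A G : Type} [Group A] [Group G] [Fintype G] (j : A →* G)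
    (hj : j.range ≤ Subgroup.center G) {χ : G → ℂ} (h : IsIrr χ) :
    ∃ μ : A →* ℂˣ, ∀ a x, χ (j a * x) = ((μ a : ℂˣ) : ℂ) * χ x := by
  have h0 := h
  obtain ⟨V, _, _, _, ρ, hr, rfl⟩ := h
  have hd : ρ.character 1 ≠ 0 := by
    have := ndeg_cast h0
    rw [← this]
    exact_mod_cast (ndeg_pos h0).ne'
  have hc : ∀ a, ∃ c : ℂ, ρ (j a) = c • LinearMap.id := by
    intro a
    refine Pool.Agent.K3h3.KT.schur' (MonoidHom.id G) ρ h0 (ρ (j a)) fun n => ?_
    have h1 : j a ∈ Subgroup.center G := hj ⟨a, rfl⟩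
    have h2 := Subgroup.mem_center_iff.mp h1 n
    rw [MonoidHom.id_apply, ← Module.End.mul_eq_comp, ← Module.End.mul_eq_comp, ← map_mul,
      ← map_mul, h2]
  choose c hc using hc
  have hx : ∀ a x, ρ.character (j a * x) = c a * ρ.character x := by
    intro a x
    unfold Representation.character
    rw [map_mul, hc a, smul_mul_assoc, map_smul, smul_eq_mul]
    rfl
  have hmul : ∀ a b, c (a * b) = c a * c b := by
    intro a b
    apply mul_right_cancel₀ hd
    rw [← hx, map_mul, mul_assoc, hx, hx, mul_assoc]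
  have hone : c 1 = 1 := by
    apply mul_right_cancel₀ hd
    rw [← hx, map_one, mul_one, one_mul]
  let μ : A →* ℂ := { toFun := c, map_one' := hone, map_mul' := hmul }
  refine ⟨μ.toHomUnits, fun a x => ?_⟩
  rw [MonoidHom.coe_toHomUnits]
  exact hx a x

/-- linear characters are irreducible -/
theorem lin {A : Type} [Group A] [Fintype A] (μ : A →* ℂˣ) :
    IsIrr (fun a => ((μ a : ℂˣ) : ℂ)) :=
  lin_irr μ

/-- inflation -/
theorem t_S8 : S8 := by
  intro R _ w L G Q _ _ _ _ _ _ j hj q hq hk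
  haveI := Fintype.ofFinite L
  haveI := Fintype.ofFinite G
  haveI := Fintype.ofFinite Q
  rw [wt_eq, wo_eq]
  have hjq : ∀ l, q (j l) = 1 := by
    intro l
    have : j l ∈ q.ker := by
      rw [hk]
      exact ⟨l, rfl⟩
    exact this
  have h1L : IsIrr (fun _ : L => (1 : ℂ)) := by simpa using lin (1 : L →* ℂˣ)
  symm
  refine Finset.sum_bij (fun β _ => fun x => β (q x)) ?_ ?_ ?_ ?_
  · intro β hβ
    rw [Finset.mem_filter]
    have hβ' := mem_Irr.mp hβ
    refine ⟨mem_Irr.mpr (irr_infl q hq hβ'), ?_⟩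
    rw [ov_iff]
    have : (fun l => β (q (j l))) = (β 1) • fun _ : L => (1 : ℂ) := by
      funext l
      rw [hjq]
      simp
    rw [this, IC.B_smul_left, IC.B_irr h1L h1L, if_pos rfl, mul_one, ← ndeg_cast hβ']
    exact_mod_cast (ndeg_pos hβ').ne'
  · intro β _ β' _ he
    funext y
    obtain ⟨x, rfl⟩ := hq y
    exact congrFun he x
  · intro χ hχ
    rw [Finset.mem_filter] at hχ
    have hχ' := mem_Irr.mp hχ.1
    have h2 := (ov_iff j _ χ).mp hχ.2
    let ρ : Representation ℂ G ℂ := 1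
    have hρ : ∀ g, ρ.character g = 1 := by
      intro g
      change LinearMap.trace ℂ ℂ 1 = 1
      rw [LinearMap.trace_one]
      simp
    have h3 : IsIrr fun l => ρ.character (j l) := by
      simp only [hρ]
      exact h1L
    obtain ⟨β, hβ, he⟩ := exists_prod j hj q hq hk ρ h3 hχ' (by
      simp only [hρ]
      exact h2)
    refine ⟨β, mem_Irr.mpr hβ, ?_⟩
    rw [he]
    funext x
    rw [hρ, one_mul]
  · intro β _
    unfold ndeg
    simp only [map_one]

/-- the sum over the irreducible characters of a central subgroup -/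
theorem t_S4a : S4a := by
  intro R _ w A G Q _ _ _ _ _ _ j hj hc K q hq hk
  haveI := Fintype.ofFinite G
  haveI := Fintype.ofFinite Q
  haveI : Fintype K := Fintype.ofFinite K
  have h8 := t_S8 R w K G Q (j.comp K.subtype) (hj.comp Subtype.coe_injective) q hq (by
    rw [hk, MonoidHom.range_comp, Subgroup.range_subtype])
  rw [← h8, wo_eq, Finset.sum_filter]
  have h0 : ∀ θ : A → ℂ, wo w j θ = ∑ χ ∈ Irr G, if ov j θ χ then w (ndeg χ) else 0 := by
    intro θ
    rw [wo_eq, Finset.sum_filter]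
  simp_rw [h0]
  rw [Finset.sum_comm]
  refine Finset.sum_congr rfl fun χ hχ => ?_
  have hχ' := mem_Irr.mp hχ
  obtain ⟨μ, hμ⟩ := central j hc hχ'
  have hd : χ 1 ≠ 0 := by
    rw [← ndeg_cast hχ']
    exact_mod_cast (ndeg_pos hχ').ne'
  have hres : (fun a => χ (j a)) = χ 1 • fun a => ((μ a : ℂˣ) : ℂ) := by
    funext a
    have := hμ a 1
    rw [mul_one] at this
    rw [this, Pi.smul_apply, smul_eq_mul, mul_comm]
  -- the characters of A under χ
  have h1 : ∀ θ ∈ Irr A, (ov j θ χ ↔ (fun a => ((μ a : ℂˣ) : ℂ)) = θ) := by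
    intro θ hθ
    rw [ov_iff, hres, IC.B_smul_left, IC.B_irr (lin μ) (mem_Irr.mp hθ)]
    constructor
    · intro h
      by_contra hne
      rw [if_neg hne, mul_zero] at h
      exact h rfl
    · intro h
      rw [if_pos h, mul_one]
      exact hd
  have h2 : ov (j.comp K.subtype) (fun _ => 1) χ ↔ ∀ k ∈ K, ((μ k : ℂˣ) : ℂ) = 1 := by
    have hresK : (fun k : K => χ ((j.comp K.subtype) k)) =
        χ 1 • fun k : K => (((μ.comp K.subtype) k : ℂˣ) : ℂ) := by
      funext k
      exact congrFun hres (k : A)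
    have h1K : IsIrr (fun _ : K => (1 : ℂ)) := by simpa using lin (1 : K →* ℂˣ)
    rw [ov_iff, hresK, IC.B_smul_left, IC.B_irr (lin (μ.comp K.subtype)) h1K]
    constructor
    · intro h k hk
      by_contra hne
      have h3 : ¬ ((fun k : K => (((μ.comp K.subtype) k : ℂˣ) : ℂ)) = fun _ => 1) := fun h4 =>
        hne (congrFun h4 ⟨k, hk⟩)
      rw [if_neg h3, mul_zero] at h
      exact h rfl
    · intro h
      have h5 : (fun k : K => (((μ.comp K.subtype) k : ℂˣ) : ℂ)) = fun _ => 1 :=
        funext fun k => h k.1 k.2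
      rw [if_pos h5, mul_one]
      exact hd
  have h3 : ∀ θ ∈ (Irr A).filter (fun θ => ∀ k ∈ K, θ k = 1),
      (if ov j θ χ then w (ndeg χ) else 0) =
        if (fun a => ((μ a : ℂˣ) : ℂ)) = θ then w (ndeg χ) else 0 := by
    intro θ hθ
    simp only [h1 θ (Finset.mem_filter.mp hθ).1]
  rw [Finset.sum_congr rfl h3, Finset.sum_ite_eq, h2]
  have h4 : ((fun a => ((μ a : ℂˣ) : ℂ)) ∈ (Irr A).filter (fun θ => ∀ k ∈ K, θ k = 1)) ↔
      ∀ k ∈ K, ((μ k : ℂˣ) : ℂ) = 1 := by
    rw [Finset.mem_filter]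
    exact ⟨fun h => h.2, fun h => ⟨mem_Irr.mpr (lin μ), h⟩⟩
  by_cases h5 : ∀ k ∈ K, ((μ k : ℂˣ) : ℂ) = 1
  · rw [if_pos h5, if_pos (h4.mpr h5)]
  · rw [if_neg h5, if_neg fun h6 => h5 (h4.mp h6)]

/-- the characters over a character which extends to a central extension -/
theorem t_S3b : S3b := by
  intro R _ w L E G Q _ _ _ _ _ _ _ _ π hπ hcen s hs t ht hk V _ _ _ ρ θ hθ hρ lam hlam
  haveI := Fintype.ofFinite L
  haveI := Fintype.ofFinite E
  haveI := Fintype.ofFinite G
  haveI := Fintype.ofFinite Q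
  haveI : Fintype π.ker := Fintype.ofFinite π.ker
  have hs' : Function.Injective s := fun a b hab => hs (congrArg π hab)
  have hts : ∀ l, t (s l) = 1 := by
    intro l
    have : s l ∈ t.ker := by
      rw [hk]
      exact ⟨l, rfl⟩
    exact this
  have hρθ : (fun l => ρ.character (s l)) = θ := funext hρ
  have hirr : IsIrr fun l => ρ.character (s l) := by
    rw [hρθ]
    exact hθ
  have hρ1 : ρ.character 1 = θ 1 := by
    rw [← hρ, map_one]
  have hρa : ∀ (a : π.ker) (x : E), ρ.character (a * x) = ((lam a : ℂˣ) : ℂ)⁻¹ * ρ.character x := by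
    intro a x
    have h1 : ρ (a : E) = (((lam a)⁻¹ : ℂˣ) : ℂ) • LinearMap.id := by
      ext v
      exact hlam a v
    unfold Representation.character
    rw [map_mul, h1, smul_mul_assoc, map_smul, smul_eq_mul, Units.val_inv_eq_inv_val]
    rfl
  have htc : (t.comp π.ker.subtype).range ≤ Subgroup.center Q := by
    rintro _ ⟨a, rfl⟩
    rw [Subgroup.mem_center_iff]
    intro y
    obtain ⟨x, rfl⟩ := ht y
    have := Subgroup.mem_center_iff.mp (hcen a.2) x
    change t x * t a = t a * t x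
    rw [← map_mul, ← map_mul, this]
  have hθ1 : θ 1 ≠ 0 := by
    rw [← ndeg_cast hθ]
    exact_mod_cast (ndeg_pos hθ).ne'
  -- the products
  let F : (Q → ℂ) → E → ℂ := fun β x => ρ.character x * β (t x)
  have hinv : ∀ β ∈ (Irr Q).filter (ov (t.comp π.ker.subtype) fun a => ((lam a : ℂˣ) : ℂ)),
      ∀ a ∈ π.ker, ∀ x, F β (a * x) = F β x := by
    intro β hβ a ha x
    rw [Finset.mem_filter] at hβ
    have hβ' := mem_Irr.mp hβ.1
    obtain ⟨μ, hμ⟩ := central (t.comp π.ker.subtype) htc hβ'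
    have hres : (fun a => β ((t.comp π.ker.subtype) a)) = β 1 • fun a => ((μ a : ℂˣ) : ℂ) := by
      funext a
      have := hμ a 1
      rw [mul_one] at this
      rw [this, Pi.smul_apply, smul_eq_mul, mul_comm]
    have h1 := (ov_iff _ _ β).mp hβ.2
    rw [hres, IC.B_smul_left, IC.B_irr (lin μ) (lin lam)] at h1
    have h2 : (fun a => ((μ a : ℂˣ) : ℂ)) = fun a => ((lam a : ℂˣ) : ℂ) := by
      by_contra hne
      rw [if_neg hne, mul_zero] at h1
      exact h1 rfl
    have h3 := hμ ⟨a, ha⟩ (t x)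
    have h4 := congrFun h2 ⟨a, ha⟩
    have h5 := hρa ⟨a, ha⟩ x
    simp only at h4 h5
    change ρ.character (a * x) * β (t (a * x)) = ρ.character x * β (t x)
    rw [h5, map_mul]
    change _ * β ((t.comp π.ker.subtype) ⟨a, ha⟩ * t x) = _
    rw [h3, h4]
    have h6 : ((lam ⟨a, ha⟩ : ℂˣ) : ℂ) ≠ 0 := Units.ne_zero _
    field_simp
  have hFirr : ∀ β, IsIrr β → IsIrr (F β) := fun β hβ => prod_irr s t ht hts ρ hirr hβ
  rw [wo_eq, wo_eq, Finset.mul_sum]
  symm
  refine Finset.sum_bij (fun β _ => dsc hπ (F β)) ?_ ?_ ?_ ?_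
  · intro β hβ
    have hβ' := mem_Irr.mp (Finset.mem_filter.mp hβ).1
    rw [Finset.mem_filter]
    refine ⟨mem_Irr.mpr (dsc_irr hπ (hinv β hβ) (hFirr β hβ')), ?_⟩
    rw [ov_iff]
    have h1 : (fun l => dsc hπ (F β) ((π.comp s) l)) = β 1 • θ := by
      funext l
      change dsc hπ (F β) (π (s l)) = _
      rw [dsc_apply hπ (hinv β hβ)]
      change ρ.character (s l) * β (t (s l)) = _
      rw [hts, hρ, Pi.smul_apply, smul_eq_mul, mul_comm]
    rw [h1, IC.B_smul_left, IC.B_irr hθ hθ, if_pos rfl, mul_one, ← ndeg_cast hβ']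
    exact_mod_cast (ndeg_pos hβ').ne'
  · intro β hβ β' hβ' he
    refine prod_inj s t ht hts ρ hirr (mem_Irr.mp (Finset.mem_filter.mp hβ).1)
      (mem_Irr.mp (Finset.mem_filter.mp hβ').1) ?_
    funext x
    have h1 := congrFun he (π x)
    rw [dsc_apply hπ (hinv β hβ), dsc_apply hπ (hinv β' hβ')] at h1
    exact h1
  · intro χ hχ
    rw [Finset.mem_filter] at hχ
    have hχ' := mem_Irr.mp hχ.1
    have h1 := (ov_iff _ _ χ).mp hχ.2
    obtain ⟨β, hβ, he⟩ := exists_prod s hs' t ht hk ρ hirr (irr_infl π hπ hχ') (by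
      rw [hρθ]
      exact h1)
    have hχ1 : χ 1 ≠ 0 := by
      rw [← ndeg_cast hχ']
      exact_mod_cast (ndeg_pos hχ').ne'
    have hβ1 : β 1 ≠ 0 := by
      rw [← ndeg_cast hβ]
      exact_mod_cast (ndeg_pos hβ).ne'
    have hov : ov (t.comp π.ker.subtype) (fun a => ((lam a : ℂˣ) : ℂ)) β := by
      rw [ov_iff]
      have h2 : (fun a => β ((t.comp π.ker.subtype) a)) = β 1 • fun a => ((lam a : ℂˣ) : ℂ) := by
        funext a
        have h3 := congrFun he (a : E)
        have h4 := congrFun he (1 : E)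
        have h5 := hρa a 1
        rw [mul_one] at h5
        have h6 : π (a : E) = 1 := a.2
        rw [h6, h5] at h3
        rw [map_one, map_one] at h4
        rw [h4] at h3
        have h7 : ((lam a : ℂˣ) : ℂ) ≠ 0 := Units.ne_zero _
        have h8 : ρ.character 1 ≠ 0 := by
          rw [hρ1]
          exact hθ1
        change β (t a) = β 1 * _
        apply mul_left_cancel₀ h8
        field_simp at h3
        rw [← h3]
      rw [h2, IC.B_smul_left, IC.B_irr (lin lam) (lin lam), if_pos rfl, mul_one]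
      exact hβ1
    have hmem : β ∈ (Irr Q).filter (ov (t.comp π.ker.subtype) fun a => ((lam a : ℂˣ) : ℂ)) :=
      Finset.mem_filter.mpr ⟨mem_Irr.mpr hβ, hov⟩
    refine ⟨β, hmem, ?_⟩
    funext g
    obtain ⟨x, rfl⟩ := hπ g
    rw [dsc_apply hπ (hinv β hmem)]
    exact (congrFun he x).symm
  · intro β hβ
    have hβ' := mem_Irr.mp (Finset.mem_filter.mp hβ).1
    rw [← map_mul]
    congr 1
    symm
    apply ndeg_eq
    have h1 := dsc_apply hπ (hinv β hβ) 1
    rw [map_one] at h1
    rw [h1]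
    change _ = ρ.character 1 * β (t 1)
    rw [map_one, hρ1, Nat.cast_mul, ndeg_cast hθ, ndeg_cast hβ']

end Pool.Agent.K3h18.IN
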