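import Pool.Agent.K3h83.IN.Stm2
import Pool.Agent.K3h18.IN.Infl

/-!
# Central `p`-elements in the commutator subgroup and characters of degree prime to `p`
-/

set_option autoImplicit false
set_option linter.style.haveILetI false

open scoped BigOperators Classical

noncomputable section

namespace Pool.Agent.K3h18.IN

open Pool.Agent.Helper884 Pool.Agent.K3h3.KB Pool.Agent.K3h3.MK Pool.Agent.K3h83.IN
open Pool.Agent.H254R3.IN (IsIrr mem_Irr)
open IC (Irr)
open Representation

theorem t_S16 : S16 := by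
  intro p _ G _ _ P z hz hzP hzG
  have hzc : ∀ g : G, g * z = z * g := fun g => Subgroup.mem_center_iff.mp hz g
  have key : ∀ (k : ℕ) (g₀ : G), g₀⁻¹ * z ^ k * g₀ ∈ (P : Subgroup G) →
      g₀⁻¹ * z ^ k * g₀ = z ^ k := by
    intro k g₀ _
    have h1 : Commute g₀ (z ^ k) := Commute.pow_right (hzc g₀) k
    rw [mul_assoc, ← h1.eq, ← mul_assoc, inv_mul_cancel, one_mul]
  have h1 := MonoidHom.transfer_eq_pow (Abelianization.of (G := (P : Subgroup G))) z key
  have h2 : MonoidHom.transfer (Abelianization.of (G := (P : Subgroup G))) z = 1 :=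
    Abelianization.commutator_subset_ker _ hzG
  rw [h2] at h1
  have h3 : (⟨z ^ (P : Subgroup G).index, MonoidHom.transfer_eq_pow_aux z key⟩ : (P : Subgroup G)) ∈
      commutator (P : Subgroup G) := by
    rw [← Abelianization.ker_of, MonoidHom.mem_ker]
    exact h1.symm
  have h4 : z ^ (P : Subgroup G).index ∈ ⁅(P : Subgroup G), (P : Subgroup G)⁆ := by
    rw [← Subgroup.map_subtype_commutator]
    exact ⟨_, h3, rfl⟩
  have h5 : z ∈ Subgroup.zpowers (z ^ (P : Subgroup G).index) := by
    rw [mem_zpowers_pow_iff]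
    have h6 : orderOf z ∣ Nat.card (P : Subgroup G) := by
      have := orderOf_dvd_natCard (⟨z, hzP⟩ : (P : Subgroup G))
      rwa [← Subgroup.orderOf_coe] at this
    exact Nat.Coprime.coprime_dvd_right h6 (P.card_coprime_index).symm
  exact (Subgroup.zpowers_le.mpr h4) h5

theorem t_S15 : S15 := by
  intro p hp A G _ _ _ _ P j hj nu a ha hne
  haveI := Fintype.ofFinite A
  haveI := Fintype.ofFinite G
  rw [wo_eq]
  refine Finset.sum_eq_zero fun χ hχ => ?_
  rw [Finset.mem_filter] at hχ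
  have hχ' := mem_Irr.mp hχ.1
  by_contra hcl
  have hp' : (ndeg χ : ZMod p) ≠ 0 := by
    intro h0
    apply hcl
    change cls p (ndeg χ) = 0
    unfold cls
    rw [dif_pos h0]
  apply hne
  obtain ⟨μ, hμ⟩ := central j hj hχ'
  have hd : χ 1 ≠ 0 := by
    rw [← ndeg_cast hχ']
    exact_mod_cast (ndeg_pos hχ').ne'
  have hres : (fun a => χ (j a)) = χ 1 • fun a => ((μ a : ℂˣ) : ℂ) := by
    funext a
    have := hμ a 1
    rw [mul_one] at this
    rw [this, Pi.smul_apply, smul_eq_mul, mul_comm]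
  have h1 := (ov_iff _ _ χ).mp hχ.2
  rw [hres, IC.B_smul_left, IC.B_irr (lin μ) (lin nu)] at h1
  have h2 : (fun a => ((μ a : ℂˣ) : ℂ)) = fun a => ((nu a : ℂˣ) : ℂ) := by
    by_contra hne
    rw [if_neg hne, mul_zero] at h1
    exact h1 rfl
  have h3 : χ (j a) = ((nu a : ℂˣ) : ℂ) * χ 1 := by
    have h4 := hμ a 1
    rw [mul_one] at h4
    rw [h4, congrFun h2 a]
  obtain ⟨V, _, _, _, ρ, hr, rfl⟩ := id hχ'
  obtain ⟨c, hc⟩ := Pool.Agent.K3h3.KT.schur' (MonoidHom.id G) ρ hχ' (ρ (j a)) fun n => by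
    have h1 : j a ∈ Subgroup.center G := hj ⟨a, rfl⟩
    have h2 := Subgroup.mem_center_iff.mp h1 n
    rw [MonoidHom.id_apply, ← Module.End.mul_eq_comp, ← Module.End.mul_eq_comp, ← map_mul,
      ← map_mul, h2]
  have h4 : ρ.character (j a) = c * ρ.character 1 := by
    unfold Representation.character
    rw [hc, map_smul, smul_eq_mul, map_one]
    rfl
  have h5 : c = ((nu a : ℂˣ) : ℂ) := by
    apply mul_right_cancel₀ hd
    rw [← h4, h3]
  rw [h5] at hc
  -- the determinant
  have hfin : (Module.finrank ℂ V : ℕ) = ndeg ρ.character := by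
    symm
    apply ndeg_eq
    rw [char_one]
  let D : G →* ℂ := (LinearMap.det : (V →ₗ[ℂ] V) →* ℂ).comp ρ
  have hD1 : D (j a) = ((nu a : ℂˣ) : ℂ) ^ ndeg ρ.character := by
    change LinearMap.det (ρ (j a)) = _
    rw [hc, LinearMap.det_smul, LinearMap.det_id, mul_one, hfin]
  have hD2 : D (j a) = 1 := by
    have h6 : j a ∈ commutator G := by
      have h7 : ⁅(P : Subgroup G), (P : Subgroup G)⁆ ≤ commutator G := by
        rw [commutator_def]
        exact Subgroup.commutator_mono le_top le_top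
      exact h7 ha
    have h8 : j a ∈ D.toHomUnits.ker := Abelianization.commutator_subset_ker D.toHomUnits h6
    have h9 := congrArg (fun u : ℂˣ => (u : ℂ)) h8
    simpa using h9
  have hP : j a ∈ (P : Subgroup G) := by
    exact Subgroup.commutator_le_self _ ha
  have hpow : j a ^ Nat.card (P : Subgroup G) = 1 := by
    have h7 : (⟨j a, hP⟩ : (P : Subgroup G)) ^ Nat.card (P : Subgroup G) = 1 := pow_card_eq_one'
    exact congrArg (fun u : (P : Subgroup G) => (u : G)) h7
  have hnu : (nu a : ℂˣ) ^ Nat.card (P : Subgroup G) = 1 := by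
    have h7 : ρ (j a ^ Nat.card (P : Subgroup G)) =
        ((nu a : ℂˣ) : ℂ) ^ Nat.card (P : Subgroup G) • (LinearMap.id : V →ₗ[ℂ] V) := by
      rw [map_pow, hc]
      have : (((nu a : ℂˣ) : ℂ) • (LinearMap.id : V →ₗ[ℂ] V)) =
        ((nu a : ℂˣ) : ℂ) • (1 : V →ₗ[ℂ] V) := rfl
      rw [this, smul_pow, one_pow]
      rfl
    rw [hpow, map_one] at h7
    have h8 := congrArg (LinearMap.trace ℂ V) h7
    rw [map_smul, smul_eq_mul] at h8
    have h9 : LinearMap.trace ℂ V 1 = ρ.character 1 := by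
      unfold Representation.character
      rw [map_one ρ]
    have h10 : LinearMap.trace ℂ V LinearMap.id = ρ.character 1 := h9
    rw [h9, h10] at h8
    have h11 : (1 : ℂ) = ((nu a : ℂˣ) : ℂ) ^ Nat.card (P : Subgroup G) := by
      apply mul_right_cancel₀ hd
      rw [one_mul]
      exact h8
    apply Units.ext
    rw [Units.val_pow_eq_pow_val, Units.val_one]
    exact h11.symm
  have hnu2 : (nu a : ℂˣ) ^ ndeg ρ.character = 1 := by
    apply Units.ext
    rw [Units.val_pow_eq_pow_val, Units.val_one, ← hD1]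
    exact hD2
  have hcop : Nat.Coprime (ndeg ρ.character) (Nat.card (P : Subgroup G)) := by
    have h6 : ¬ p ∣ ndeg ρ.character := by
      intro h7
      exact hp' ((ZMod.natCast_eq_zero_iff _ _).mpr h7)
    obtain ⟨k, hk⟩ := IsPGroup.iff_card.mp P.isPGroup'
    rw [hk]
    exact Nat.Coprime.pow_right k ((Nat.Prime.coprime_iff_not_dvd hp.out).mpr h6).symm
  have h12 := Nat.dvd_gcd (orderOf_dvd_of_pow_eq_one hnu2) (orderOf_dvd_of_pow_eq_one hnu)
  rw [Nat.Coprime] at hcop
  rw [hcop] at h12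
  exact orderOf_eq_one_iff.mp (Nat.dvd_one.mp h12)

end Pool.Agent.K3h18.IN
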