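import Pool.Agent.K3h85.IN.CExt
import Pool.Agent.K3h83.IN.Stm4

/-!
# The complement acts linearly on the space of an invariant representation
-/

set_option autoImplicit false
set_option linter.style.haveILetI false

open scoped BigOperators Classical

noncomputable section

namespace Pool.Agent.K3h18.IN

open Pool.Agent.Helper884 Pool.Agent.K3h3.KB Pool.Agent.K3h3.MK Pool.Agent.K3h83.IN
open Pool.Agent.H254R3.IN
open IC (Irr)
open Representation
open Pool.Agent.K3h85.IN

/-- the central extension of `G` acting on the space of an invariant representation -/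
theorem main2 {L G : Type} [Group L] [Group G] {V : Type} [AddCommGroup V] [Module ℂ V]
    [Finite L] [Finite G] [FiniteDimensional ℂ V] (j : L →* G) (hj : Function.Injective j)
    (hn : j.range.Normal) (σ : Representation ℂ L V) (hσ : σ.IsIrreducible)
    (hinv : ∀ (x : G) (l l' : L), x * j l * x⁻¹ = j l' → σ.character l' = σ.character l) :
    ∃ (E : Type) (_ : Group E) (_ : Finite E) (π : E →* G) (ρ : Representation ℂ E V),
    Function.Surjective π ∧
    (∀ (x : E) (l l' : L), π x * j l * (π x)⁻¹ = j l' → ρ x * σ l = σ l' * ρ x) ∧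
    ∀ x y : E, π x = π y → ρ x = ρ y → x = y := by
  haveI : Nontrivial V := irr_nontrivial σ hσ
  have hdim : 0 < Module.finrank ℂ V := Module.finrank_pos
  set E := grp j hj hn σ with hE
  have memE : ∀ x : G × (V →ₗ[ℂ] V)ˣ, x ∈ E ↔ (∀ l l', x.1 * j l * x.1⁻¹ = j l' →
      (x.2 : V →ₗ[ℂ] V) * σ l = σ l' * (x.2 : V →ₗ[ℂ] V)) ∧
      LinearMap.det (x.2 : V →ₗ[ℂ] V) ^ Nat.card L = 1 := fun x => Iff.rfl
  let π : E →* G := (MonoidHom.fst G (V →ₗ[ℂ] V)ˣ).comp E.subtype
  let ρ : Representation ℂ E V := (Units.coeHom (V →ₗ[ℂ] V)).comp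
    ((MonoidHom.snd G (V →ₗ[ℂ] V)ˣ).comp E.subtype)
  have hρ : ∀ x : E, ρ x = (x.1.2 : V →ₗ[ℂ] V) := fun x => rfl
  have hπ : ∀ x : E, π x = x.1.1 := fun x => rfl
  have hsurj : Function.Surjective π := by
    intro g
    obtain ⟨α, hα, hα'⟩ := exists_conj j hj hn g
    obtain ⟨S, hS⟩ := exists_unit σ (MonoidHom.comp σ α) hσ (irr_comp_surj σ hσ α hα') (by
      funext l
      exact (hinv g l (α l) (hα l).symm).symm)
    have hd : LinearMap.det (S : V →ₗ[ℂ] V) ≠ 0 := by
      have := (LinearMap.isUnit_det _ S.isUnit).ne_zero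
      exact this
    obtain ⟨c, hc⟩ := IsAlgClosed.exists_pow_nat_eq (LinearMap.det (S : V →ₗ[ℂ] V))⁻¹ hdim
    have hc0 : c ≠ 0 := by
      rintro rfl
      rw [zero_pow hdim.ne'] at hc
      exact inv_ne_zero hd hc.symm
    refine ⟨⟨(g, Units.mk0 c hc0 • S), ?_⟩, rfl⟩
    rw [memE]
    have e1 : ((Units.mk0 c hc0 • S : (V →ₗ[ℂ] V)ˣ) : V →ₗ[ℂ] V) = c • (S : V →ₗ[ℂ] V) := rfl
    refine ⟨fun l l' h => ?_, ?_⟩
    · have h1 : l' = α l := hj (by rw [hα, ← h])
      rw [e1, smul_mul_assoc, hS, h1, mul_smul_comm]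
      rfl
    · rw [e1, LinearMap.det_smul, hc, inv_mul_cancel₀ hd, one_pow]
  have hscal : ∀ a : π.ker, ∃ c : ℂ, ρ a = c • LinearMap.id := by
    intro a
    refine schur σ hσ _ fun l v => ?_
    have h1 : (a.1.1.1 : G) = 1 := MonoidHom.mem_ker.mp a.2
    have h2 := ((memE _).mp a.1.2).1 l l (by rw [h1]; simp)
    exact congrArg (fun f => f v) h2
  choose c hc using hscal
  have hcinj : ∀ {x y : ℂ}, x • (LinearMap.id : V →ₗ[ℂ] V) = y • LinearMap.id → x = y :=
    fun h => scalar_inj h
  let cc : π.ker →* ℂ :=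
    { toFun := c
      map_one' := hcinj (by rw [← hc, one_smul]; simp; rfl)
      map_mul' := fun a b => hcinj (by
        rw [← hc, Subgroup.coe_mul, map_mul, hc, hc]
        ext v
        simp [smul_smul, mul_comm]) }
  have hccinj : Function.Injective cc := by
    rw [injective_iff_map_eq_one]
    intro a ha
    have h1 : (a.1.1.1 : G) = 1 := MonoidHom.mem_ker.mp a.2
    have h2 : ρ a = c a • LinearMap.id := hc a
    have h3 : c a = 1 := ha
    rw [h3, one_smul, hρ] at h2
    apply Subtype.ext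
    apply Subtype.ext
    refine Prod.ext h1 ?_
    apply Units.ext
    exact h2
  have hroot : ∀ a, (MonoidHom.toHomUnits cc a) ∈
      rootsOfUnity (Module.finrank ℂ V * Nat.card L) ℂ := by
    intro a
    rw [mem_rootsOfUnity']
    have h1 := ((memE _).mp a.1.2).2
    have h2 : (a.1.1.2 : V →ₗ[ℂ] V) = c a • LinearMap.id := hc a
    rw [h2, LinearMap.det_smul, LinearMap.det_id, mul_one, ← pow_mul] at h1
    exact h1
  haveI : NeZero (Module.finrank ℂ V * Nat.card L) := ⟨(Nat.mul_pos hdim Nat.card_pos).ne'⟩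
  haveI hfk : Finite π.ker := by
    refine Finite.of_injective (fun a => (⟨MonoidHom.toHomUnits cc a, hroot a⟩ :
      rootsOfUnity (Module.finrank ℂ V * Nat.card L) ℂ)) fun a b hab => ?_
    apply hccinj
    have := congrArg (fun z => ((z : ℂˣ) : ℂ)) (Subtype.ext_iff.mp hab)
    exact this
  haveI hfE : Finite E := by
    haveI : Finite (E ⧸ π.ker) := Finite.of_injective _
      (QuotientGroup.quotientKerEquivRange π).injective
    exact Finite.of_subgroup_quotient π.ker
  refine ⟨E, inferInstance, hfE, π, ρ, hsurj, ?_, ?_⟩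
  · intro x l l' h
    exact ((memE _).mp x.2).1 l l' h
  · intro x y h1 h2
    apply Subtype.ext
    refine Prod.ext h1 ?_
    apply Units.ext
    exact h2

theorem t_G4 (hTW : TW) (h16 : S16) (h17 : S17) : G4 := by
  intro p q hp hq G _ _ L N E hL nu hqp hsup hinf hEN hNE hEab hEp hfp hnu V _ _ _ σ hσ hσnu hdeg hfix
  haveI := hL.nL
  haveI : Nontrivial V := irr_nontrivial σ hσ
  have hcenL : ∀ z : L, z ∈ Subgroup.center L ↔ (z : G) ∈ Subgroup.center G := by
    intro z
    constructor
    · intro h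
      refine hL.cen z z.2 fun m hm => ?_
      have := Subgroup.mem_center_iff.mp h ⟨m, hm⟩
      exact (congrArg (fun u : L => (u : G)) this).symm
    · intro h
      rw [Subgroup.mem_center_iff]
      intro g
      exact Subtype.ext (Subgroup.mem_center_iff.mp h g)
  let φ : G →* MulAut L := MulAut.conjNormal (H := L)
  have hφ : ∀ (g : G) (l : L), ((φ g l : L) : G) = g * l * g⁻¹ := fun g l => rfl
  -- the representation of a `q`-subgroup of `N`
  have hR : ∀ R : Subgroup G, R ≤ N → IsPGroup q R → ∃ W : Representation ℂ R V,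
      (∀ (r : R) (m : L) (v : V), W r (σ m v) = σ (φ r m) (W r v)) ∧
      ∀ r : R, (r : G) ∈ Subgroup.center G → W r = 1 := by
    intro R hRN hRq
    have hSD : SD p q φ E R :=
      { ne := hqp.symm
        cen := by
          intro x z hz
          apply Subtype.ext
          rw [hφ, Subgroup.mem_center_iff.mp ((hcenL z).mp hz) x, mul_assoc, mul_inv_cancel,
            mul_one]
        sy := ⟨fun m => (hcenL _).mpr (hL.pow m m.2), fun a b => (hcenL _).mpr
          (hL.com a a.2 b b.2)⟩
        Eab := hEab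
        Epow := hEp
        RE := fun r hr e he => hNE r (hRN hr) e he
        Rq := hRq
        fpf := by
          intro m hm
          rw [hcenL]
          refine hfp m m.2 fun e he => ?_
          have h1 := congrArg (fun u : L => (u : G)) (hm e he)
          simp only [hφ] at h1
          exact mul_inv_eq_iff_eq_mul.mp h1 }
    obtain ⟨W, hW1, hW2⟩ := hTW p q L G φ E R hSD V σ hσ (by
      intro z hz h1
      have h2 := (hcenL z).mp hz
      have h3 : nu ⟨z, h2⟩ = 1 := by
        apply Units.ext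
        obtain ⟨v, hv⟩ := exists_ne (0 : V)
        have h4 := hσnu ⟨z, h2⟩ v
        have h5 : σ z v = v := by rw [h1]; rfl
        have h6 : (((nu ⟨z, h2⟩ : ℂˣ) : ℂ) - 1) • v = 0 := by
          rw [sub_smul, one_smul, ← h4]
          exact sub_eq_zero.mpr h5
        rcases smul_eq_zero.mp h6 with h7 | h7
        · exact sub_eq_zero.mp h7
        · exact absurd h7 hv
      have h4 : (⟨z, h2⟩ : Subgroup.center G) = 1 := hnu (by rw [h3, map_one])
      exact Subtype.ext (congrArg (fun u : Subgroup.center G => (u : G)) h4))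
    refine ⟨W, hW1, fun r hr => hW2 r fun m => ?_⟩
    apply Subtype.ext
    rw [hφ, ← Subgroup.mem_center_iff.mp hr m, mul_assoc, mul_inv_cancel, mul_one]
  obtain ⟨D, _, _, π, ρ, hπ, hρσ, hinj⟩ := main2 L.subtype L.subtype_injective
    (by rw [Subgroup.range_subtype]; exact hL.nL) σ hσ (fun x l l' h => hfix x l l' h)
  have hρσ' : ∀ (x : D) (l : L), ρ x * σ l = σ (φ (π x) l) * ρ x := fun x l =>
    hρσ x l (φ (π x) l) rfl
  have hZ : ∀ x : D, π x ∈ Subgroup.center G → ∃ c : ℂ, ρ x = c • LinearMap.id := by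
    intro x hx
    refine schur σ hσ _ fun l v => ?_
    have h2 := hρσ x l l (by
      rw [Subgroup.mem_center_iff] at hx
      change π x * (l : G) * (π x)⁻¹ = l
      rw [← hx, mul_assoc, mul_inv_cancel, mul_one])
    exact congrArg (fun f => f v) h2
  have hcinj : ∀ {x y : ℂ}, x • (LinearMap.id : V →ₗ[ℂ] V) = y • LinearMap.id → x = y :=
    fun h => scalar_inj h
  have hDcen : ∀ x : D, π x ∈ Subgroup.center G → x ∈ Subgroup.center D := by
    intro x hx
    rw [Subgroup.mem_center_iff]
    intro y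
    obtain ⟨c, hc⟩ := hZ x hx
    refine hinj _ _ ?_ ?_
    · rw [map_mul, map_mul, Subgroup.mem_center_iff.mp hx]
    · rw [map_mul, map_mul, hc]
      ext v
      simp
  -- the preimage of `N`
  let N' : Subgroup D := N.comap π
  let A : Subgroup N' := ((Subgroup.center G).comap π).comap N'.subtype
  have hAsc : ∀ a : A, ∃ c : ℂ, ρ ((a : N') : D) = c • LinearMap.id := fun a => hZ _ a.2
  choose c hc using hAsc
  let cc : A →* ℂ :=
    { toFun := c
      map_one' := hcinj (by rw [← hc, one_smul]; simp; rfl)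
      map_mul' := fun a b => hcinj (by
        rw [← hc, Subgroup.coe_mul, Subgroup.coe_mul, map_mul, hc, hc]
        ext v
        simp [smul_smul, mul_comm]) }
  let χ : A →* ℂˣ := MonoidHom.toHomUnits cc
  have hχ : ∀ a : A, ρ ((a : N') : D) = ((χ a : ℂˣ) : ℂ) • LinearMap.id := hc
  -- the degree
  have hfin : (Module.finrank ℂ V : ℕ) = ndeg σ.character := by
    symm
    apply ndeg_eq
    rw [char_one]
  obtain ⟨k, hk⟩ : ∃ k : ℕ, (Subgroup.center G).relIndex L = q ^ k := by
    haveI : ((Subgroup.center G).subgroupOf L).Normal := inferInstance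
    have h1 : IsPGroup q (L ⧸ (Subgroup.center G).subgroupOf L) := by
      intro g
      induction g using QuotientGroup.induction_on with
      | H l =>
        refine ⟨1, ?_⟩
        rw [pow_one, ← QuotientGroup.mk_pow, QuotientGroup.eq_one_iff, Subgroup.mem_subgroupOf]
        exact hL.pow l l.2
    exact IsPGroup.iff_card.mp h1
  have hpowk : ∀ a : A, (a : N') ∈ commutator N' → (χ a) ^ (q ^ k) = 1 := by
    intro a ha
    let Dt : N' →* ℂ := (LinearMap.det : (V →ₗ[ℂ] V) →* ℂ).comp (ρ.comp N'.subtype)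
    have h1 : Dt a = ((χ a : ℂˣ) : ℂ) ^ ndeg σ.character := by
      change LinearMap.det (ρ ((a : N') : D)) = _
      rw [hχ, LinearMap.det_smul, LinearMap.det_id, mul_one, hfin]
    have h2 : Dt a = 1 := by
      have h8 : (a : N') ∈ Dt.toHomUnits.ker := Abelianization.commutator_subset_ker Dt.toHomUnits ha
      have h9 := congrArg (fun u : ℂˣ => (u : ℂ)) h8
      simpa using h9
    have h3 : (χ a) ^ ndeg σ.character = 1 := by
      apply Units.ext
      rw [Units.val_pow_eq_pow_val, Units.val_one, ← h1]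
      exact h2
    rw [← hk, ← hdeg, pow_two, pow_mul, h3, one_pow]
  -- elements of `q`-power order
  have hqel : ∀ (a : A) (m : ℕ), (a : N') ∈ commutator N' → (a : N') ^ (q ^ m) = 1 → χ a = 1 := by
    intro a m ha hm
    have hPG : IsPGroup q (Subgroup.zpowers (a : N')) := by
      intro g
      refine ⟨m, ?_⟩
      obtain ⟨i, hi⟩ := Subgroup.mem_zpowers_iff.mp g.2
      apply Subtype.ext
      rw [Subgroup.coe_pow, ← hi, ← zpow_natCast, ← zpow_mul, mul_comm, zpow_mul, zpow_natCast, hm,
        one_zpow]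
      rfl
    obtain ⟨Q, hQ⟩ := hPG.exists_le_sylow
    have haQ : (a : N') ∈ Q := hQ (Subgroup.mem_zpowers _)
    have hac : (a : N') ∈ Subgroup.center N' := by
      rw [Subgroup.mem_center_iff]
      intro g
      exact Subtype.ext (Subgroup.mem_center_iff.mp (hDcen _ a.2) (g : D))
    have haQQ := h16 q N' Q (a : N') hac haQ ha
    let f : N' →* G := π.comp N'.subtype
    have hfN : (Q : Subgroup N').map f ≤ N := by
      rintro _ ⟨y, _, rfl⟩
      exact y.2
    obtain ⟨W, hW1, hW2⟩ := hR ((Q : Subgroup N').map f) hfN (Q.isPGroup'.map f)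
    let r : (Q : Subgroup N') →* (Q : Subgroup N').map f := f.subgroupMap (Q : Subgroup N')
    have hr : ∀ y : (Q : Subgroup N'), ((r y : (Q : Subgroup N').map f) : G) = π ((y : N') : D) :=
      fun y => rfl
    have hWinv : ∀ y : (Q : Subgroup N').map f, W y⁻¹ * W y = 1 ∧ W y * W y⁻¹ = 1 := by
      intro y
      rw [← map_mul, ← map_mul, inv_mul_cancel, mul_inv_cancel, map_one]
      exact ⟨rfl, rfl⟩
    have hW1' : ∀ (y : (Q : Subgroup N').map f) (m : L), W y * σ m = σ (φ (y : G) m) * W y := by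
      intro y m
      ext v
      exact hW1 y m v
    have hsc : ∀ y : (Q : Subgroup N'), ∃ d : ℂ,
        W (r y)⁻¹ * ρ ((y : N') : D) = d • LinearMap.id := by
      intro y
      refine schur σ hσ _ fun l v => ?_
      have h1 : (W (r y)⁻¹ * ρ ((y : N') : D)) * σ l = σ l * (W (r y)⁻¹ * ρ ((y : N') : D)) := by
        rw [mul_assoc, hρσ', ← mul_assoc]
        have h2 : W (r y)⁻¹ * σ (φ (π ((y : N') : D)) l) = σ l * W (r y)⁻¹ := by
          have h3 := hW1' (r y)⁻¹ (φ (π ((y : N') : D)) l)
          have h4 : φ (((r y)⁻¹ : (Q : Subgroup N').map f) : G) (φ (π ((y : N') : D)) l) = l := by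
            rw [Subgroup.coe_inv, hr, ← MulAut.mul_apply, ← map_mul, inv_mul_cancel, map_one,
              MulAut.one_apply]
          rw [h4] at h3
          exact h3
        rw [h2, mul_assoc]
      exact congrArg (fun f => f v) h1
    choose d hd using hsc
    have hd' : ∀ y : (Q : Subgroup N'), ρ ((y : N') : D) = d y • W (r y) := by
      intro y
      have h1 : W (r y) * (W (r y)⁻¹ * ρ ((y : N') : D)) = W (r y) * (d y • LinearMap.id) := by
        rw [hd]
      rw [← mul_assoc, (hWinv _).2, one_mul, mul_smul_comm] at h1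
      exact h1
    let dd : (Q : Subgroup N') →* ℂ :=
      { toFun := d
        map_one' := hcinj (by
          rw [← hd, map_one, inv_one, map_one, Subgroup.coe_one, Subgroup.coe_one, map_one,
            one_smul]
          rfl)
        map_mul' := fun x y => hcinj (by
          have h1 : ρ (((x * y : (Q : Subgroup N')) : N') : D) = (d x * d y) • W (r (x * y)) := by
            rw [Subgroup.coe_mul, Subgroup.coe_mul, map_mul, hd', hd', map_mul, map_mul,
              smul_mul_smul_comm]
          rw [← hd, h1, mul_smul_comm, (hWinv _).1]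
          rfl) }
    have h5 : (⟨(a : N'), haQ⟩ : (Q : Subgroup N')) ∈ commutator (Q : Subgroup N') := by
      rw [← Subgroup.map_subtype_commutator] at haQQ
      obtain ⟨b, hb, hba⟩ := haQQ
      have : b = ⟨(a : N'), haQ⟩ := Subtype.ext hba
      rwa [← this]
    have h6 : dd ⟨(a : N'), haQ⟩ = 1 := by
      have h8 : (⟨(a : N'), haQ⟩ : (Q : Subgroup N')) ∈ dd.toHomUnits.ker :=
        Abelianization.commutator_subset_ker dd.toHomUnits h5
      have h9 := congrArg (fun u : ℂˣ => (u : ℂ)) h8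
      simpa using h9
    have h7 := hd' ⟨(a : N'), haQ⟩
    have h8 : W (r ⟨(a : N'), haQ⟩) = 1 := hW2 _ a.2
    have h9 : d ⟨(a : N'), haQ⟩ = 1 := h6
    rw [h8, h9] at h7
    apply Units.ext
    apply hcinj
    rw [← hχ, Units.val_one]
    exact h7
  have hclaim : ∀ a : A, (a : N') ∈ commutator N' → χ a = 1 := by
    intro a ha
    have hpos : 0 < orderOf (a : N') := orderOf_pos _
    obtain ⟨m, r, hr, hm⟩ := Nat.exists_eq_pow_mul_and_not_dvd hpos.ne' q hq.out.ne_one
    have h1 : χ (a ^ r) = 1 := by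
      refine hqel (a ^ r) m ?_ ?_
      · rw [Subgroup.coe_pow]
        exact Subgroup.pow_mem _ ha r
      · rw [Subgroup.coe_pow, ← pow_mul, mul_comm, ← hm]
        exact pow_orderOf_eq_one _
    rw [map_pow] at h1
    have h2 := Nat.dvd_gcd (orderOf_dvd_of_pow_eq_one h1) (orderOf_dvd_of_pow_eq_one (hpowk a ha))
    have h3 : Nat.Coprime r (q ^ k) :=
      Nat.Coprime.pow_right k ((Nat.Prime.coprime_iff_not_dvd hq.out).mpr hr).symm
    rw [Nat.Coprime] at h3
    rw [h3] at h2
    exact orderOf_eq_one_iff.mp (Nat.dvd_one.mp h2)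
  obtain ⟨ω, hω⟩ := h17 N' A χ hclaim
  let g : N' →* (V →ₗ[ℂ] V) :=
    { toFun := fun x => (((ω x)⁻¹ : ℂˣ) : ℂ) • ρ (x : D)
      map_one' := by
        rw [map_one, inv_one, Units.val_one, one_smul, Subgroup.coe_one, map_one]
      map_mul' := by
        intro x y
        rw [map_mul, mul_inv, Units.val_mul, Subgroup.coe_mul, map_mul, smul_mul_smul_comm] }
  have hg : ∀ x : N', g x = (((ω x)⁻¹ : ℂˣ) : ℂ) • ρ (x : D) := fun x => rfl
  let πN : N' →* N := π.subgroupComap N
  have hπN : Function.Surjective πN := by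
    intro n
    obtain ⟨x, hx⟩ := hπ n
    exact ⟨⟨x, by rw [Subgroup.mem_comap, hx]; exact n.2⟩, Subtype.ext hx⟩
  have hgZ : ∀ x : N', ((πN x : N) : G) ∈ Subgroup.center G → g x = 1 := by
    intro x hx
    have h1 := hω ⟨x, hx⟩
    have h2 := hχ ⟨x, hx⟩
    have h1' : ω x = χ ⟨x, hx⟩ := h1
    rw [hg, h1', h2, smul_smul, Units.inv_mul, one_smul]
    rfl
  have hker : πN.ker ≤ g.toHomUnits.ker := by
    intro x hx
    rw [MonoidHom.mem_ker] at hx ⊢
    apply Units.ext
    change g x = 1
    apply hgZ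
    rw [hx]
    exact Subgroup.one_mem _
  let WU : N →* (V →ₗ[ℂ] V)ˣ := πN.liftOfSurjective hπN ⟨g.toHomUnits, hker⟩
  have hWU : ∀ x : N', WU (πN x) = g.toHomUnits x := fun x =>
    MonoidHom.liftOfRightInverse_comp_apply πN _ _ ⟨g.toHomUnits, hker⟩ x
  let W : Representation ℂ N V := (Units.coeHom (V →ₗ[ℂ] V)).comp WU
  have hWg : ∀ x : N', W (πN x) = g x := by
    intro x
    change ((WU (πN x) : (V →ₗ[ℂ] V)ˣ) : V →ₗ[ℂ] V) = g x
    rw [hWU]
    rfl
  refine ⟨W, ?_, ?_⟩
  · intro n l l' h v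
    obtain ⟨x, rfl⟩ := hπN n
    rw [hWg, hg]
    have h1 := hρσ (x : D) l l' h
    have h2 := congrArg (fun f => f v) h1
    change (((ω x)⁻¹ : ℂˣ) : ℂ) • (ρ (x : D) * σ l) v = σ l' ((((ω x)⁻¹ : ℂˣ) : ℂ) • ρ (x : D) v)
    rw [map_smul]
    exact congrArg (fun u => (((ω x)⁻¹ : ℂˣ) : ℂ) • u) h2
  · intro n hn
    obtain ⟨x, rfl⟩ := hπN n
    rw [hWg]
    exact hgZ x hn

end Pool.Agent.K3h18.IN
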