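import Pool.Agent.K3h83.IN.Stm
import Pool.Agent.K3h3.KT.Uni

/-!
# Gallagher's theorem
-/

set_option autoImplicit false

open scoped BigOperators Classical

noncomputable section

namespace Pool.Agent.K3h18.IN

open Pool.Agent.Helper884 Pool.Agent.K3h3.KB Pool.Agent.K3h3.MK Pool.Agent.K3h83.IN
open Pool.Agent.H254R3.IN (IsIrr mem_Irr)
open Pool.Agent.Q90.WR (irr_of_norm B_nat)
open IC (Irr)
open Representation

/-- sums over a group of functions on a quotient -/
theorem sum_quot {E Q : Type} [Group E] [Fintype E] [Group Q] [Fintype Q] (t : E →* Q)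
    (ht : Function.Surjective t) (g : Q → ℂ) :
    (Nat.card E : ℂ)⁻¹ * ∑ x, g (t x) = (Nat.card Q : ℂ)⁻¹ * ∑ q, g q := by
  have hfib : ∀ q : Q, (Finset.univ.filter fun x => t x = q).card =
      (Finset.univ.filter fun x => t x = 1).card := by
    intro q
    exact MonoidHom.card_fiber_eq_of_mem_range t (ht q) ⟨1, map_one t⟩
  have key : ∀ f : Q → ℂ, ∑ x, f (t x) =
      (((Finset.univ.filter fun x => t x = 1).card : ℕ) : ℂ) * ∑ q, f q := by
    intro f
    rw [← Finset.sum_fiberwise Finset.univ (fun x => t x) (fun x => f (t x)), Finset.mul_sum]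
    refine Finset.sum_congr rfl fun q _ => ?_
    rw [Finset.sum_congr rfl (g := fun _ => f q) fun x hx => by rw [(Finset.mem_filter.mp hx).2],
      Finset.sum_const, nsmul_eq_mul, hfib q]
  have h1 := key fun _ => 1
  rw [Finset.sum_const, Finset.sum_const, Finset.card_univ, Finset.card_univ, nsmul_eq_mul,
    nsmul_eq_mul, mul_one, mul_one, ← Nat.card_eq_fintype_card, ← Nat.card_eq_fintype_card] at h1
  have hE : (Nat.card E : ℂ) ≠ 0 := IC.cardG_ne
  have hQ : (Nat.card Q : ℂ) ≠ 0 := IC.cardG_ne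
  have hK : (((Finset.univ.filter fun x => t x = 1).card : ℕ) : ℂ) ≠ 0 := by
    intro h0
    rw [h0, zero_mul] at h1
    exact hE h1
  rw [key g, h1]
  field_simp

variable {L E Q V : Type} [Group L] [Fintype L] [Group E] [Fintype E] [Group Q] [Fintype Q]
  [AddCommGroup V] [Module ℂ V] [FiniteDimensional ℂ V]

theorem B_prod (s : L →* E) (t : E →* Q) (ht : Function.Surjective t) (hts : ∀ l, t (s l) = 1)
    (ρ : Representation ℂ E V) (h : IsIrr fun l => ρ.character (s l)) (β β' : Q → ℂ) :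
    IC.B (fun x => ρ.character x * β (t x)) (fun x => ρ.character x * β' (t x)) =
      IC.B β β' := by
  have hL : (Nat.card L : ℂ) ≠ 0 := IC.cardG_ne
  have h1 : ∀ n : L, ∑ x : E, (ρ.character x * β (t x)) * (ρ.character x⁻¹ * β' (t x⁻¹)) =
      ∑ x : E, (ρ.character (s n * x) * ρ.character (s n * x)⁻¹) * (β (t x) * β' (t x)⁻¹) := by
    intro n
    refine (Fintype.sum_equiv (Equiv.mulLeft (s n)) _ _ fun x => ?_).symm
    simp only [Equiv.coe_mulLeft, map_mul, hts, one_mul, map_inv, mul_inv_rev, inv_one, mul_one]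
    ring
  have h2 : (Nat.card L : ℂ) * ∑ x : E, (ρ.character x * β (t x)) *
      (ρ.character x⁻¹ * β' (t x⁻¹)) = Nat.card L * ∑ x : E, β (t x) * β' (t x)⁻¹ := by
    calc (Nat.card L : ℂ) * ∑ x : E, (ρ.character x * β (t x)) *
        (ρ.character x⁻¹ * β' (t x⁻¹)) = ∑ n : L, ∑ x : E, (ρ.character x * β (t x)) *
        (ρ.character x⁻¹ * β' (t x⁻¹)) := by
          rw [Finset.sum_const, Finset.card_univ, nsmul_eq_mul, Nat.card_eq_fintype_card]
      _ = ∑ n : L, ∑ x : E, (ρ.character (s n * x) * ρ.character (s n * x)⁻¹) *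
          (β (t x) * β' (t x)⁻¹) := Finset.sum_congr rfl fun n _ => h1 n
      _ = ∑ x : E, (∑ n : L, ρ.character (s n * x) * ρ.character (s n * x)⁻¹) *
          (β (t x) * β' (t x)⁻¹) := by
          rw [Finset.sum_comm]
          refine Finset.sum_congr rfl fun x _ => ?_
          rw [Finset.sum_mul]
      _ = Nat.card L * ∑ x : E, β (t x) * β' (t x)⁻¹ := by
          rw [Finset.mul_sum]
          refine Finset.sum_congr rfl fun x _ => ?_
          rw [Pool.Agent.K3h3.KT.coset_norm s ρ h x]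
  have h3 := mul_left_cancel₀ hL h2
  unfold IC.B
  rw [h3]
  exact sum_quot t ht fun q => β q * β' q⁻¹

theorem prod_irr (s : L →* E) (t : E →* Q) (ht : Function.Surjective t) (hts : ∀ l, t (s l) = 1)
    (ρ : Representation ℂ E V) (h : IsIrr fun l => ρ.character (s l)) {β : Q → ℂ}
    (hβ : IsIrr β) : IsIrr fun x => ρ.character x * β (t x) := by
  have hn : IC.B (fun x => ρ.character x * β (t x)) (fun x => ρ.character x * β (t x)) = 1 := by
    rw [B_prod s t ht hts ρ h, IC.B_irr hβ hβ, if_pos rfl]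
  obtain ⟨U, _, _, _, σ, hσ, rfl⟩ := hβ
  have e : (fun x => ρ.character x * σ.character (t x)) = (ρ.tprod (σ.comp t)).character := by
    rw [char_tensor]
    rfl
  rw [e] at hn ⊢
  refine irr_of_norm (IC.isClass_char _) ?_ hn ⟨Module.finrank ℂ _, char_one _⟩
  rintro χ ⟨U', _, _, _, σ', _, rfl⟩
  obtain ⟨n, hn'⟩ := B_nat (ρ.tprod (σ.comp t)) σ'
  exact ⟨n, by rw [hn']; norm_cast⟩

theorem prod_inj (s : L →* E) (t : E →* Q) (ht : Function.Surjective t) (hts : ∀ l, t (s l) = 1)
    (ρ : Representation ℂ E V) (h : IsIrr fun l => ρ.character (s l)) {β β' : Q → ℂ}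
    (h1 : IsIrr β) (h2 : IsIrr β')
    (he : (fun x => ρ.character x * β (t x)) = fun x => ρ.character x * β' (t x)) : β = β' := by
  by_contra hne
  have h3 := B_prod s t ht hts ρ h β β'
  rw [← he, B_prod s t ht hts ρ h, IC.B_irr h1 h1, if_pos rfl, IC.B_irr h1 h2, if_neg hne] at h3
  exact one_ne_zero h3

theorem exists_prod (s : L →* E) (hs : Function.Injective s) (t : E →* Q)
    (ht : Function.Surjective t) (hk : t.ker = s.range)
    (ρ : Representation ℂ E V) (h : IsIrr fun l => ρ.character (s l)) {χ : E → ℂ}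
    (hχ : IsIrr χ) (hov : IC.B (fun l => χ (s l)) (fun l => ρ.character (s l)) ≠ 0) :
    ∃ β : Q → ℂ, IsIrr β ∧ χ = fun x => ρ.character x * β (t x) := by
  have hts : ∀ l, t (s l) = 1 := by
    intro l
    have : s l ∈ t.ker := by
      rw [hk]
      exact ⟨l, rfl⟩
    exact this
  have hE : (Nat.card E : ℂ) ≠ 0 := IC.cardG_ne
  have hL : (Nat.card L : ℂ) ≠ 0 := IC.cardG_ne
  have hQ : (Nat.card Q : ℂ) ≠ 0 := IC.cardG_ne
  -- the sum over the kernel
  have h1 : ∑ x : E, (if t x = 1 then (Nat.card Q : ℂ) else 0) * ρ.character x * χ x⁻¹ =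
      Nat.card Q * ∑ l : L, ρ.character (s l) * χ (s l)⁻¹ := by
    rw [Finset.mul_sum]
    have h2 : ∑ x : E, (if t x = 1 then (Nat.card Q : ℂ) else 0) * ρ.character x * χ x⁻¹ =
        ∑ x ∈ (Finset.univ : Finset L).image s, (Nat.card Q : ℂ) * (ρ.character x * χ x⁻¹) := by
      symm
      refine Finset.sum_subset_zero_on_sdiff (Finset.subset_univ _) ?_ ?_
      · intro x hx
        rw [Finset.mem_sdiff] at hx
        rw [if_neg, zero_mul, zero_mul]
        intro h4
        have h5 : x ∈ s.range := by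
          rw [← hk]
          exact h4
        obtain ⟨l, hl⟩ := h5
        exact hx.2 (Finset.mem_image.mpr ⟨l, Finset.mem_univ _, hl⟩)
      · intro x hx
        obtain ⟨l, _, rfl⟩ := Finset.mem_image.mp hx
        rw [if_pos (hts l), mul_assoc]
    rw [h2, Finset.sum_image fun a _ b _ hab => hs hab]
  have h2 : IC.B (∑ β ∈ Irr Q, β 1 • fun x => ρ.character x * β (t x)) χ ≠ 0 := by
    have e : (∑ β ∈ Irr Q, β 1 • fun x => ρ.character x * β (t x)) =
        fun x => (if t x = 1 then (Nat.card Q : ℂ) else 0) * ρ.character x := by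
      funext x
      rw [← Pool.Agent.K3h3.KT.reg (t x), Finset.sum_apply, Finset.sum_mul]
      refine Finset.sum_congr rfl fun β _ => ?_
      simp only [Pi.smul_apply, smul_eq_mul]
      ring
    rw [e]
    unfold IC.B
    rw [h1]
    rw [IC.B_comm] at hov
    unfold IC.B at hov
    refine mul_ne_zero (inv_ne_zero hE) (mul_ne_zero hQ ?_)
    have h3 := right_ne_zero_of_mul hov
    simpa only [map_inv] using h3
  rw [IC.B_sum_left] at h2
  obtain ⟨β, hβ, hne⟩ := Finset.exists_ne_zero_of_sum_ne_zero h2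
  have hβ' := mem_Irr.mp hβ
  refine ⟨β, hβ', ?_⟩
  rw [IC.B_smul_left, IC.B_irr (prod_irr s t ht hts ρ h hβ') hχ] at hne
  by_contra hcon
  apply hne
  rw [if_neg fun h4 => hcon h4.symm, mul_zero]

theorem t_S3g : S3g := by
  intro L E Q _ _ _ _ _ _ s hs t ht hk V _ _ _ ρ h
  haveI := Fintype.ofFinite L
  haveI := Fintype.ofFinite E
  haveI := Fintype.ofFinite Q
  have hts : ∀ l, t (s l) = 1 := by
    intro l
    have : s l ∈ t.ker := by
      rw [hk]
      exact ⟨l, rfl⟩
    exact this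
  refine ⟨fun β hβ => prod_irr s t ht hts ρ h hβ,
    fun β β' h1 h2 he => prod_inj s t ht hts ρ h h1 h2 he, fun χ hχ hov => ?_⟩
  exact exists_prod s hs t ht hk ρ h hχ ((ov_iff s _ χ).mp hov)

end Pool.Agent.K3h18.IN
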