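import Pool.Agent.K3h83.IN.Stm4
import Pool.Agent.K3h18.IN.Infl

/-!
# Characters of `G = LN` over a character of `L` which extends to `L ⋊ N`
-/

set_option autoImplicit false
set_option linter.style.haveILetI false

open scoped BigOperators Classical

noncomputable section

namespace Pool.Agent.K3h18.IN

open Pool.Agent.Helper884 Pool.Agent.K3h3.KB Pool.Agent.K3h3.MK Pool.Agent.K3h83.IN
open Pool.Agent.H254R3.IN (IsIrr mem_Irr)
open IC (Irr)
open Representation

/-- the action of `N` on `L` by conjugation -/
def cj {G : Type} [Group G] (L N : Subgroup G) [L.Normal] : N →* MulAut L :=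
  (MulAut.conjNormal (H := L)).comp N.subtype

theorem cj_coe {G : Type} [Group G] (L N : Subgroup G) [L.Normal] (n : N) (l : L) :
    ((cj L N n l : L) : G) = n * l * (n : G)⁻¹ := rfl

/-- the product map -/
def pim {G : Type} [Group G] (L N : Subgroup G) [L.Normal] : L ⋊[cj L N] N →* G :=
  SemidirectProduct.lift L.subtype N.subtype (by
    intro n
    ext l
    rfl)

theorem pim_apply {G : Type} [Group G] (L N : Subgroup G) [L.Normal] (g : L ⋊[cj L N] N) :
    pim L N g = (g.left : G) * g.right := rfl

theorem t_G5 : G5 := by
  intro R _ w G _ _ L N Z hZL hZN hZ hLn hsup hinf nu V _ _ _ σ hσ hnu W hW1 hW2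
  haveI := hLn
  let Γ := L ⋊[cj L N] N
  haveI : Finite Γ := Finite.of_equiv (L × N) SemidirectProduct.equivProd.symm
  have hcen : ∀ (z : Z) (g : G), g * z = z * g := fun z g => Subgroup.mem_center_iff.mp (hZ z.2) g
  have hker : ∀ a : (pim L N).ker, (((a : Γ).right : N) : G) ∈ Z ∧
      ((a : Γ).left : G) = (((a : Γ).right : N) : G)⁻¹ := by
    intro a
    have h1 : ((a : Γ).left : G) * (a : Γ).right = 1 := a.2
    have h2 : ((a : Γ).left : G) = (((a : Γ).right : N) : G)⁻¹ := eq_inv_of_mul_eq_one_left h1
    refine ⟨?_, h2⟩
    rw [← hinf]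
    refine ⟨?_, (a : Γ).right.2⟩
    have h3 := L.inv_mem (a : Γ).left.2
    rwa [h2, inv_inv] at h3
  let f : (pim L N).ker ≃* Z :=
    { toFun := fun a => ⟨(((a : Γ).right : N) : G), (hker a).1⟩
      invFun := fun z => ⟨⟨⟨(z : G)⁻¹, L.inv_mem (hZL z.2)⟩, ⟨z, hZN z.2⟩⟩, by
        rw [MonoidHom.mem_ker, pim_apply]
        exact inv_mul_cancel (z : G)⟩
      left_inv := by
        intro a
        apply Subtype.ext
        apply SemidirectProduct.ext
        · apply Subtype.ext
          exact (hker a).2.symm
        · rfl
      right_inv := fun z => rfl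
      map_mul' := fun a b => rfl }
  let ρ : Representation ℂ Γ V :=
    { toFun := fun g => σ g.left * W g.right
      map_one' := by
        rw [SemidirectProduct.one_left, SemidirectProduct.one_right, map_one, map_one, one_mul]
      map_mul' := by
        intro a b
        rw [SemidirectProduct.mul_left, SemidirectProduct.mul_right, map_mul, map_mul]
        have h1 : W a.right * σ b.left = σ (cj L N a.right b.left) * W a.right := by
          ext v
          exact hW1 a.right b.left (cj L N a.right b.left) (cj_coe L N _ _).symm v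
        rw [mul_assoc, ← mul_assoc (σ ((cj L N a.right) b.left)), ← h1]
        simp only [mul_assoc] }
  have hρ : ∀ g : Γ, ρ g = σ g.left * W g.right := fun g => rfl
  have hS := t_S3b R w L Γ G N (pim L N) (by
      rw [← MonoidHom.range_eq_top, eq_top_iff, ← hsup, sup_le_iff]
      constructor
      · intro l hl
        exact ⟨SemidirectProduct.inl ⟨l, hl⟩, by
          rw [pim_apply, SemidirectProduct.left_inl, SemidirectProduct.right_inl]
          exact mul_one l⟩
      · intro n hn
        exact ⟨SemidirectProduct.inr ⟨n, hn⟩, by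
          rw [pim_apply, SemidirectProduct.left_inr, SemidirectProduct.right_inr]
          exact one_mul n⟩) (by
      intro a ha
      rw [Subgroup.mem_center_iff]
      intro g
      obtain ⟨h1, h2⟩ := hker ⟨a, ha⟩
      have hz : ∀ x : G, x * (a.right : G) = (a.right : G) * x := fun x => hcen ⟨_, h1⟩ x
      have hz' : ∀ x : G, x * (a.left : G) = (a.left : G) * x := by
        intro x
        have h3 : (a.left : G) = (a.right : G)⁻¹ := h2
        rw [h3]
        have h4 := hz x
        rw [eq_comm, inv_mul_eq_iff_eq_mul, ← mul_assoc, ← h4, mul_assoc, mul_inv_cancel, mul_one]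
      apply SemidirectProduct.ext
      · apply Subtype.ext
        rw [SemidirectProduct.mul_left, SemidirectProduct.mul_left, Subgroup.coe_mul,
          Subgroup.coe_mul, cj_coe, cj_coe, hz', ← hz (g.left : G), mul_assoc (g.left : G),
          mul_inv_cancel, mul_one, mul_assoc (a.left : G) (g.right : G), mul_inv_cancel, mul_one,
          hz']
      · apply Subtype.ext
        rw [SemidirectProduct.mul_right, SemidirectProduct.mul_right, Subgroup.coe_mul,
          Subgroup.coe_mul]
        exact hz _)
    SemidirectProduct.inl (by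
      intro a b hab
      have h1 : (a : G) * ((1 : N) : G) = (b : G) * ((1 : N) : G) := hab
      exact Subtype.ext (mul_right_cancel h1))
    SemidirectProduct.rightHom SemidirectProduct.rightHom_surjective
    SemidirectProduct.range_inl_eq_ker_rightHom.symm V ρ σ.character ⟨V, _, _, inferInstance, σ, hσ, rfl⟩ (by
      intro l
      unfold Representation.character
      rw [hρ, SemidirectProduct.left_inl, SemidirectProduct.right_inl, map_one, mul_one])
    (nu.comp f.toMonoidHom) (by
      intro a v
      obtain ⟨h1, h2⟩ := hker a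
      have h3 : W (a : Γ).right = 1 := hW2 _ h1
      have h4 : (a : Γ).left = ⟨(((f a)⁻¹ : Z) : G), hZL ((f a)⁻¹).2⟩ := Subtype.ext h2
      rw [hρ, h3, mul_one, h4, hnu, map_inv]
      rfl)
  have h1 : (pim L N).comp SemidirectProduct.inl = L.subtype := by
    ext l
    rw [MonoidHom.comp_apply, pim_apply, SemidirectProduct.left_inl, SemidirectProduct.right_inl]
    exact mul_one (l : G)
  rw [h1] at hS
  rw [hS]
  congr 1
  refine wo_congr w f (MulEquiv.refl N) _ _ (fun l => rfl) _ _ fun l => rfl

end Pool.Agent.K3h18.IN
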